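import Pool.Agent.W901.RL.Stm

/-!
# RL-GRAM: labels of many strings are nearly orthogonal
-/

set_option autoImplicit false

namespace Pool.Agent.W150.RL

open Finset Pool.Agent.NPC Pool.Agent.H579R2.Spt Pool.Agent.H251R5.PQ Pool.Agent.W901.AT
open Pool.Agent.W901.RL

/-! ### Orthogonality of the labels -/

theorem ch_sq (b : Bool) : ch b * ch b = 1 := by cases b <;> simp [ch]

theorem orth (D : ℕ) : ∀ c d : List Bool, c.length = D → d.length = D → c ≠ d →
    ∑ a ∈ BL D, ch (ip a c) * ch (ip a d) = 0 := by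
  induction D with
  | zero =>
    intro c d hc hd hne
    exact absurd (by rw [List.length_eq_zero_iff.1 hc, List.length_eq_zero_iff.1 hd]) hne
  | succ D ih =>
    intro c d hc hd hne
    cases c with
    | nil => simp at hc
    | cons e c =>
      cases d with
      | nil => simp at hd
      | cons e' d =>
        rw [sum_BL_succ]
        simp only [ip_cons, ch_xor]
        by_cases he : e = e'
        · subst he
          have hcd : c ≠ d := fun h => hne (by rw [h])
          have h1 := ih c d (by simpa using hc) (by simpa using hd) hcd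
          have h2 : ∀ a ∈ BL D, (ch (true && e) * ch (ip a c) * (ch (true && e) * ch (ip a d)) +
              ch (false && e) * ch (ip a c) * (ch (false && e) * ch (ip a d))) =
              2 * (ch (ip a c) * ch (ip a d)) := by
            intro a _
            cases e <;> cases ip a c <;> cases ip a d <;> simp [ch]
          rw [Finset.sum_congr rfl h2, ← Finset.mul_sum, h1, mul_zero]
        · refine Finset.sum_eq_zero fun a _ => ?_
          cases e <;> cases e' <;> first
            | exact absurd rfl he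
            | (cases ip a c <;> cases ip a d <;> simp [ch])

theorem flat_inj {β : Type} (p : ℕ) (f g : β → List Bool) (hf : ∀ b, (f b).length = p)
    (hg : ∀ b, (g b).length = p) : ∀ l : List β, l.flatMap f = l.flatMap g →
    ∀ b ∈ l, f b = g b := by
  intro l
  induction l with
  | nil => intro _ b hb; simp at hb
  | cons a l ih =>
    intro h b hb
    rw [List.flatMap_cons, List.flatMap_cons] at h
    obtain ⟨h1, h2⟩ := List.append_inj h (by rw [hf, hg])
    rcases List.mem_cons.1 hb with rfl | hb
    · exact h1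
    · exact ih h2 b hb

theorem lift_length (p : ℕ) (u : List Bool) : (lift p u).length = p * p := by
  unfold lift
  simp [List.length_flatMap]

theorem lift_inj {p : ℕ} (hp : p.Prime) {u v : List Bool} (h : u.length = v.length)
    (hj : u.length < p) (huv : u ≠ v) : lift p u ≠ lift p v := by
  intro he
  have h1 := collisions hp u v h huv
  have h2 : ∃ α ∈ range p, hv p α u ≠ hv p α v := by
    by_contra hcon
    push Not at hcon
    rw [Finset.filter_true_of_mem hcon, card_range] at h1
    omega
  obtain ⟨α, hα, h3⟩ := h2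
  have h4 := flat_inj p (fun i => (List.range p).map (fun c => decide (hv p i u = c)))
    (fun i => (List.range p).map (fun c => decide (hv p i v = c))) (by simp) (by simp)
    (List.range p) he α (by simpa using hα)
  have h5 := congrArg (fun l : List Bool => l.getD (hv p α u) false) h4
  have h6 : hv p α u < p := hv_lt hp.pos α u
  simp [h6] at h5
  exact h3 h5.symm

theorem lab_orth' {p : ℕ} (hp : p.Prime) {u v : List Bool} (h : u.length = v.length)
    (hj : u.length < p) (huv : u ≠ v) :
    ∑ s ∈ BL (p * p), ch (lbl p s u) * ch (lbl p s v) = 0 :=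
  orth (p * p) _ _ (lift_length p u) (lift_length p v) (lift_inj hp h hj huv)

/-! ### Sums over blocks -/

theorem blk_zero (D : ℕ) (σ : List Bool) : blk D 0 σ = σ.take D := by
  simp [blk]

theorem blk_succ (D i : ℕ) (σ : List Bool) : blk D (i + 1) σ = blk D i (σ.drop D) := by
  unfold blk
  rw [List.drop_drop]
  congr 2
  ring

theorem sum_blocks (D : ℕ) : ∀ (m : ℕ) (f : ℕ → List Bool → ℤ),
    ∑ σ ∈ BL (m * D), ∏ i ∈ range m, f i (blk D i σ) = ∏ i ∈ range m, ∑ s ∈ BL D, f i s := by
  intro m
  induction m with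
  | zero =>
    intro f
    rw [Nat.zero_mul, sum_BL_zero]
    simp
  | succ m ih =>
    intro f
    have e : (m + 1) * D = D + m * D := by ring
    have h1 := sum_BL_add D (m * D) (f 0) (fun r => ∏ i ∈ range m, f (i + 1) (blk D i r))
    rw [ih (fun i => f (i + 1))] at h1
    rw [e, prod_range_succ']
    refine Eq.trans (Finset.sum_congr rfl fun σ _ => ?_) (h1.trans (mul_comm _ _))
    rw [prod_range_succ', blk_zero]
    simp only [blk_succ]
    exact mul_comm _ _

/-! ### The Gram matrix -/

/-- the entry of the label matrix -/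
def chi (p : ℕ) (σ u : List Bool) (i : ℕ) : ℤ := ch (lbl p (blk (p * p) i σ) u)

theorem chi_sq (p : ℕ) (σ u : List Bool) (i : ℕ) : chi p σ u i * chi p σ u i = 1 := ch_sq _

theorem four {p m j : ℕ} (hp : p.Prime) (hj : j < p) {u v : List Bool} (hu : u.length = j)
    (hv : v.length = j) {i i' : ℕ} (hi : i < m) (hi' : i' < m) (hii : i ≠ i') :
    ∑ σ ∈ BL (m * (p * p)), (chi p σ u i * chi p σ u i') * (chi p σ v i * chi p σ v i') =
      if u = v then 2 ^ (m * (p * p)) else 0 := by
  by_cases huv : u = v
  · rw [if_pos huv, ← card_BL, Finset.card_eq_sum_ones, Nat.cast_sum]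
    refine Finset.sum_congr rfl fun σ _ => ?_
    rw [huv]
    have h1 := chi_sq p σ v i
    have h2 := chi_sq p σ v i'
    push_cast
    calc _ = (chi p σ v i * chi p σ v i) * (chi p σ v i' * chi p σ v i') := by ring
      _ = 1 := by rw [h1, h2, one_mul]
  · rw [if_neg huv]
    obtain ⟨φ, hφ⟩ : ∃ φ : List Bool → ℤ, φ = fun s => ch (lbl p s u) * ch (lbl p s v) := ⟨_, rfl⟩
    have h1 : ∀ σ ∈ BL (m * (p * p)),
        (chi p σ u i * chi p σ u i') * (chi p σ v i * chi p σ v i') =
        ∏ l ∈ range m, (fun l s => (if l = i then φ s else 1) * (if l = i' then φ s else 1)) l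
          (blk (p * p) l σ) := by
      intro σ _
      simp only
      rw [Finset.prod_mul_distrib]
      have h2 : ∀ a, a < m → ∏ l ∈ range m, (if l = a then φ (blk (p * p) l σ) else 1) =
          φ (blk (p * p) a σ) := by
        intro a ha
        rw [Finset.prod_ite_eq' (range m) a (fun l => φ (blk (p * p) l σ)),
          if_pos (mem_range.2 ha)]
      rw [h2 i hi, h2 i' hi', hφ]
      unfold chi
      ring
    rw [Finset.sum_congr rfl h1]
    refine (sum_blocks (p * p) m (fun l s => (if l = i then φ s else 1) *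
      (if l = i' then φ s else 1))).trans ?_
    refine Finset.prod_eq_zero (mem_range.2 hi) ?_
    simp only [if_true, if_neg hii, mul_one]
    rw [hφ]
    exact lab_orth' hp (hu.trans hv.symm) (by omega) huv

/-- the entry of the Gram matrix -/
def gr (p : ℕ) (W : Finset (List Bool)) (σ : List Bool) (i i' : ℕ) : ℤ :=
  ∑ u ∈ W, chi p σ u i * chi p σ u i'

theorem sum_gr_sq {p m j : ℕ} (hp : p.Prime) (hj : j < p) (W : Finset (List Bool))
    (hW : ∀ u ∈ W, u.length = j) {i i' : ℕ} (hi : i < m) (hi' : i' < m) (hii : i ≠ i') :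
    ∑ σ ∈ BL (m * (p * p)), gr p W σ i i' ^ 2 = W.card * 2 ^ (m * (p * p)) := by
  have h1 : ∀ σ ∈ BL (m * (p * p)), gr p W σ i i' ^ 2 =
      ∑ u ∈ W, ∑ v ∈ W, (chi p σ u i * chi p σ u i') * (chi p σ v i * chi p σ v i') := by
    intro σ _
    unfold gr
    rw [sq, Finset.sum_mul_sum]
  rw [Finset.sum_congr rfl h1, Finset.sum_comm]
  have h2 : ∀ u ∈ W, ∑ σ ∈ BL (m * (p * p)),
      ∑ v ∈ W, (chi p σ u i * chi p σ u i') * (chi p σ v i * chi p σ v i') =
      2 ^ (m * (p * p)) := by
    intro u hu
    rw [Finset.sum_comm, Finset.sum_congr rfl fun v hv =>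
      four hp hj (hW u hu) (hW v hv) hi hi' hii, Finset.sum_ite_eq, if_pos hu]
  rw [Finset.sum_congr rfl h2, Finset.sum_const, nsmul_eq_mul]

/-- sum of the squares of the entries off the diagonal -/
def off (p m : ℕ) (W : Finset (List Bool)) (σ : List Bool) : ℤ :=
  ∑ i ∈ range m, ∑ i' ∈ range m, if i = i' then 0 else gr p W σ i i' ^ 2

theorem off_nonneg (p m : ℕ) (W : Finset (List Bool)) (σ : List Bool) : 0 ≤ off p m W σ :=
  Finset.sum_nonneg fun i _ => Finset.sum_nonneg fun i' _ => by
    split_ifs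
    · exact le_rfl
    · positivity

theorem sum_off {p m j : ℕ} (hp : p.Prime) (hj : j < p) (W : Finset (List Bool))
    (hW : ∀ u ∈ W, u.length = j) :
    ∑ σ ∈ BL (m * (p * p)), off p m W σ ≤ m ^ 2 * (W.card * 2 ^ (m * (p * p))) := by
  unfold off
  rw [Finset.sum_comm]
  calc _ ≤ ∑ i ∈ range m, ∑ i' ∈ range m, ((W.card : ℤ) * 2 ^ (m * (p * p))) := by
        refine Finset.sum_le_sum fun i hi => ?_
        rw [Finset.sum_comm]
        refine Finset.sum_le_sum fun i' hi' => ?_
        by_cases h : i = i'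
        · simp only [if_pos h, Finset.sum_const_zero]
          positivity
        · simp only [if_neg h]
          exact (sum_gr_sq hp hj W hW (mem_range.1 hi) (mem_range.1 hi') h).le
    _ = _ := by
        rw [Finset.sum_const, Finset.sum_const, card_range, nsmul_eq_mul, nsmul_eq_mul]
        ring

/-! ### The quadratic form -/

theorem quad {p m : ℕ} (W : Finset (List Bool)) (σ : List Bool) (c : ℕ → ℤ) {Q : ℕ}
    (h : 64 * (Q : ℤ) ^ 2 * off p m W σ ≤ (W.card : ℤ) ^ 2) :
    8 * (Q : ℤ) * ∑ u ∈ W, (∑ i ∈ range m, c i * chi p σ u i) ^ 2 ≤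
      (∑ i ∈ range m, c i ^ 2) * (8 * Q + 1) * W.card := by
  obtain ⟨s, hs⟩ : ∃ s : ℤ, s = ∑ i ∈ range m, c i ^ 2 := ⟨_, rfl⟩
  have hs0 : 0 ≤ s := by rw [hs]; exact Finset.sum_nonneg fun i _ => sq_nonneg _
  -- expansion
  have e1 : ∑ u ∈ W, (∑ i ∈ range m, c i * chi p σ u i) ^ 2 =
      ∑ i ∈ range m, ∑ i' ∈ range m, c i * c i' * gr p W σ i i' := by
    have h1 : ∀ u ∈ W, (∑ i ∈ range m, c i * chi p σ u i) ^ 2 =
        ∑ i ∈ range m, ∑ i' ∈ range m, c i * c i' * (chi p σ u i * chi p σ u i') := by
      intro u _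
      rw [sq, Finset.sum_mul_sum]
      exact Finset.sum_congr rfl fun i _ => Finset.sum_congr rfl fun i' _ => by ring
    rw [Finset.sum_congr rfl h1, Finset.sum_comm]
    refine Finset.sum_congr rfl fun i _ => ?_
    rw [Finset.sum_comm]
    refine Finset.sum_congr rfl fun i' _ => ?_
    unfold gr
    rw [Finset.mul_sum]
  have e2 : ∀ i, gr p W σ i i = W.card := by
    intro i
    unfold gr
    rw [Finset.sum_congr rfl fun u _ => chi_sq p σ u i]
    simp
  obtain ⟨T, hT⟩ : ∃ T : ℤ, T = ∑ i ∈ range m, ∑ i' ∈ range m,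
      (c i * c i') * (if i = i' then 0 else gr p W σ i i') := ⟨_, rfl⟩
  have e3 : ∑ i ∈ range m, ∑ i' ∈ range m, c i * c i' * gr p W σ i i' = s * W.card + T := by
    rw [hT, hs, Finset.sum_mul, ← Finset.sum_add_distrib]
    refine Finset.sum_congr rfl fun i hi => ?_
    have h1 : ∀ i' ∈ range m, c i * c i' * gr p W σ i i' =
        (if i = i' then c i ^ 2 * W.card else 0) +
          (c i * c i') * (if i = i' then 0 else gr p W σ i i') := by
      intro i' _
      by_cases h2 : i = i'
      · subst h2
        rw [if_pos rfl, if_pos rfl, e2]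
        ring
      · rw [if_neg h2, if_neg h2]
        ring
    rw [Finset.sum_congr rfl h1, Finset.sum_add_distrib, Finset.sum_ite_eq, if_pos hi]
  -- Cauchy-Schwarz
  have e4 : T ^ 2 ≤ s ^ 2 * off p m W σ := by
    have h1 := Finset.sum_mul_sq_le_sq_mul_sq (range m ×ˢ range m)
      (fun q : ℕ × ℕ => c q.1 * c q.2) (fun q => if q.1 = q.2 then 0 else gr p W σ q.1 q.2)
    rw [Finset.sum_product, Finset.sum_product, Finset.sum_product] at h1
    have h2 : ∑ i ∈ range m, ∑ i' ∈ range m, (c i * c i') ^ 2 = s ^ 2 := by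
      rw [hs, sq (∑ i ∈ range m, c i ^ 2), Finset.sum_mul_sum]
      exact Finset.sum_congr rfl fun i _ => Finset.sum_congr rfl fun i' _ => by ring
    have h3 : ∑ i ∈ range m, ∑ i' ∈ range m, (if i = i' then 0 else gr p W σ i i') ^ 2 =
        off p m W σ := by
      unfold off
      refine Finset.sum_congr rfl fun i _ => Finset.sum_congr rfl fun i' _ => ?_
      split_ifs
      · simp
      · rfl
    simp only at h1
    rw [h2, h3, ← hT] at h1
    exact h1
  have e5 : 8 * (Q : ℤ) * T ≤ s * W.card := by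
    refine (le_abs_self _).trans (abs_le_of_sq_le_sq ?_ (by positivity))
    calc (8 * (Q : ℤ) * T) ^ 2 = 64 * (Q : ℤ) ^ 2 * T ^ 2 := by ring
      _ ≤ 64 * (Q : ℤ) ^ 2 * (s ^ 2 * off p m W σ) := by gcongr
      _ = s ^ 2 * (64 * (Q : ℤ) ^ 2 * off p m W σ) := by ring
      _ ≤ s ^ 2 * (W.card : ℤ) ^ 2 := by gcongr
      _ = (s * W.card) ^ 2 := by ring
  rw [e1, e3, ← hs]
  linear_combination e5

/-! ### Predictions -/

/-- the coefficient of a prediction -/
def co (o : Option Bool) : ℤ := o.elim 0 ch

theorem excess_eq : ∀ (h : List (Option Bool)) (f : ℕ → Bool),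
    excess h ((List.range h.length).map f) =
      ∑ i ∈ range h.length, co (h.getD i none) * ch (f i) := by
  intro h
  induction h with
  | nil => intro f; simp [excess]
  | cons a h ih =>
    intro f
    have h1 := ih (fun i => f (i + 1))
    rw [List.length_cons, List.range_succ_eq_map, List.map_cons, List.map_map,
      Finset.sum_range_succ']
    have h2 : excess (a :: h) (f 0 :: (List.range h.length).map (f ∘ Nat.succ)) =
        (if a = none then (0 : ℤ) else if a = some (f 0) then 1 else -1) +
          excess h ((List.range h.length).map (fun i => f (i + 1))) := by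
      unfold excess
      rw [List.zip_cons_cons, List.map_cons, List.sum_cons]
      rfl
    rw [h2, h1, add_comm]
    congr 1
    cases a with
    | none => simp [co]
    | some b => cases b <;> cases f 0 <;> simp [co, ch]

theorem made_eq : ∀ h : List (Option Bool),
    (made h : ℤ) = ∑ i ∈ range h.length, co (h.getD i none) ^ 2 := by
  intro h
  induction h with
  | nil => simp [made]
  | cons a h ih =>
    rw [List.length_cons, Finset.sum_range_succ']
    have h1 : ∀ i, (a :: h).getD (i + 1) none = h.getD i none := fun i => by simp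
    simp only [h1]
    rw [← ih]
    cases a with
    | none => simp [made, co]
    | some b => cases b <;> simp [made, co, ch]

theorem gram : S_GRAM := by
  intro p m j K Q W hp hj hQ hnd hW hN
  obtain ⟨Wf, hWf⟩ : ∃ Wf : Finset (List Bool), Wf = W.toFinset := ⟨_, rfl⟩
  have hcard : Wf.card = W.length := by rw [hWf]; exact List.toFinset_card_of_nodup hnd
  have hWm : ∀ u ∈ Wf, u.length = j := fun u hu => hW u (by simpa [hWf] using hu)
  obtain ⟨Bad, hBad⟩ : ∃ Bad : Finset (List Bool), Bad = (BL (m * (p * p))).filter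
    (fun σ => (Wf.card : ℤ) ^ 2 < 64 * (Q : ℤ) ^ 2 * off p m Wf σ) := ⟨_, rfl⟩
  have hsub : {σ : List Bool | σ.length = m * (p * p) ∧ ¬ ∀ h : List (Option Bool), h.length = m →
      8 * (Q : ℤ) * (W.map (fun u => (excess h (row p m σ u)) ^ 2)).sum ≤
        (made h : ℤ) * (8 * Q + 1) * W.length} ⊆ (Bad : Set (List Bool)) := by
    rintro σ ⟨hσ, hh⟩
    rw [Finset.mem_coe, hBad, Finset.mem_filter, mem_BL]
    refine ⟨hσ, ?_⟩
    by_contra hcon
    apply hh
    intro h hl
    have h1 := quad (p := p) (m := m) Wf σ (fun i => co (h.getD i none)) (Q := Q) (not_lt.1 hcon)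
    subst hl
    rw [← made_eq, hcard, hWf, List.sum_toFinset _ hnd] at h1
    have h5 : W.map (fun u => (excess h (row p h.length σ u)) ^ 2) =
        W.map (fun u => (∑ i ∈ range h.length, co (h.getD i none) * chi p σ u i) ^ 2) := by
      refine List.map_congr_left fun u _ => ?_
      unfold row
      rw [excess_eq]
      rfl
    rw [h5]
    exact h1
  have h1 : (K : ℤ) * Bad.card ≤ 2 ^ (m * (p * p)) := by
    have h2 : (Bad.card : ℤ) * (Wf.card : ℤ) ^ 2 ≤
        64 * (Q : ℤ) ^ 2 * (m ^ 2 * (Wf.card * 2 ^ (m * (p * p)))) := by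
      calc (Bad.card : ℤ) * (Wf.card : ℤ) ^ 2 = ∑ σ ∈ Bad, (Wf.card : ℤ) ^ 2 := by
            rw [Finset.sum_const, nsmul_eq_mul]
        _ ≤ ∑ σ ∈ Bad, 64 * (Q : ℤ) ^ 2 * off p m Wf σ := by
            refine Finset.sum_le_sum fun σ hσ => ?_
            rw [hBad, Finset.mem_filter] at hσ
            exact hσ.2.le
        _ ≤ ∑ σ ∈ BL (m * (p * p)), 64 * (Q : ℤ) ^ 2 * off p m Wf σ := by
            refine Finset.sum_le_sum_of_subset_of_nonneg ?_ fun σ _ _ => ?_
            · rw [hBad]; exact Finset.filter_subset _ _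
            · have := off_nonneg p m Wf σ
              positivity
        _ = 64 * (Q : ℤ) ^ 2 * ∑ σ ∈ BL (m * (p * p)), off p m Wf σ := by rw [Finset.mul_sum]
        _ ≤ _ := by
            gcongr
            exact sum_off hp hj Wf hWm
    rcases Nat.eq_zero_or_pos Wf.card with h0 | h0
    · have h3 : Bad = ∅ := by
        rw [hBad]
        refine Finset.filter_false_of_mem fun σ _ => ?_
        have h4 : Wf = ∅ := Finset.card_eq_zero.1 h0
        subst h4
        simp [off, gr]
      rw [h3]
      simp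
    · have hN' : (64 : ℤ) * K * m ^ 2 * Q ^ 2 ≤ Wf.card := by
        rw [hcard]
        exact_mod_cast hN
      have h0' : (0 : ℤ) < Wf.card := by exact_mod_cast h0
      have h3 : (K : ℤ) * Bad.card * (Wf.card : ℤ) ^ 2 ≤ 2 ^ (m * (p * p)) * (Wf.card : ℤ) ^ 2 := by
        calc (K : ℤ) * Bad.card * (Wf.card : ℤ) ^ 2 = K * (Bad.card * (Wf.card : ℤ) ^ 2) := by ring
          _ ≤ K * (64 * (Q : ℤ) ^ 2 * (m ^ 2 * (Wf.card * 2 ^ (m * (p * p))))) := by gcongr
          _ = (64 * K * m ^ 2 * Q ^ 2) * (Wf.card * 2 ^ (m * (p * p))) := by ring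
          _ ≤ Wf.card * (Wf.card * 2 ^ (m * (p * p))) := by gcongr
          _ = _ := by ring
      exact le_of_mul_le_mul_right h3 (by positivity)
  have h2 := Set.ncard_le_ncard hsub (Finset.finite_toSet Bad)
  rw [Set.ncard_coe_finset] at h2
  have h3 : (K : ℤ) * ({σ : List Bool | σ.length = m * (p * p) ∧ ¬ ∀ h : List (Option Bool),
      h.length = m → 8 * (Q : ℤ) * (W.map (fun u => (excess h (row p m σ u)) ^ 2)).sum ≤
        (made h : ℤ) * (8 * Q + 1) * W.length}.ncard : ℤ) ≤ 2 ^ (m * (p * p)) := by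
    refine le_trans ?_ h1
    gcongr
  exact_mod_cast h3

end Pool.Agent.W150.RL
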